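import Pool.Agent.Helper88.ETSP.RDefs

namespace Pool.Agent.Helper88.ETSP

open Pool.Agent.Helper52.ETSP (Instance)

open Finset

theorem ofNat_succ' {n : ℕ} (r : ℕ) : Fin.ofNat (n + 1) (r + 1) = Fin.ofNat (n + 1) r + 1 := by
  apply Fin.ext
  simp [Fin.val_add]

theorem ofNat_val' {n : ℕ} (x : Fin (n + 1)) : Fin.ofNat (n + 1) x.val = x := by
  apply Fin.ext
  simp

theorem finRotate_add {n : ℕ} (i : Fin (n + 1)) : finRotate (n + 1) i = i + 1 := by
  rw [finRotate_apply]

theorem closed_var {n : ℕ} (g : Fin (n + 1) → ℝ) (j k : Fin (n + 1)) :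
    2 * (g j - g k) ≤ ∑ i, |g (finRotate (n + 1) i) - g i| := by
  set G : ℕ → ℝ := fun r => g (k + Fin.ofNat (n + 1) r) with hG
  have e1 : ∑ i, |g (finRotate (n + 1) i) - g i| =
      ∑ r ∈ range (n + 1), |G (r + 1) - G r| := by
    rw [← Equiv.sum_comp (Equiv.addLeft k)]
    rw [Finset.sum_range]
    apply Finset.sum_congr rfl
    intro r _
    simp only [Equiv.coe_addLeft, finRotate_add, hG, ofNat_succ', ofNat_val', add_assoc]
  rw [e1]
  have hsum : ∑ r ∈ range (n + 1), |G (r + 1) - G r| =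
      ∑ r ∈ range ((j - k).val), |G (r + 1) - G r| +
      ∑ r ∈ Ico ((j - k).val) (n + 1), |G (r + 1) - G r| := by
    rw [Finset.range_eq_Ico, Finset.range_eq_Ico]
    rw [Finset.sum_Ico_consecutive _ (Nat.zero_le _) (by omega)]
  have h0 : G 0 = g k := by
    simp only [hG]
    congr 1
    have : Fin.ofNat (n + 1) 0 = 0 := rfl
    rw [this, add_zero]
  have hn : G (n + 1) = g k := by
    simp only [hG]
    congr 1
    have : Fin.ofNat (n + 1) (n + 1) = 0 := by
      apply Fin.ext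
      simp
    rw [this, add_zero]
  have ht : G ((j - k).val) = g j := by
    simp only [hG, ofNat_val']
    congr 1
    abel
  have h1 : |G ((j - k).val) - G 0| ≤ ∑ r ∈ range ((j - k).val), |G (r + 1) - G r| := by
    rw [← Finset.sum_range_sub]
    exact Finset.abs_sum_le_sum_abs _ _
  have h2 : |G (n + 1) - G ((j - k).val)| ≤ ∑ r ∈ Ico ((j - k).val) (n + 1), |G (r + 1) - G r| := by
    rw [← Finset.sum_Ico_sub _ (by omega : (j - k).val ≤ n + 1)]
    exact Finset.abs_sum_le_sum_abs _ _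
  have := le_abs_self (G ((j - k).val) - G 0)
  have := neg_abs_le (G (n + 1) - G ((j - k).val))
  rw [hsum]
  rw [ht] at *
  rw [h0, hn] at *
  linarith

/-- A dual certificate for lower bounds on closed tours. -/
theorem cert {n : ℕ} (hn : 1 ≤ n) (d : Fin (n + 1) → Fin (n + 1) → ℝ)
    (σ : Equiv.Perm (Fin (n + 1))) (w f1 f2 f3 : Fin (n + 1) → ℝ)
    (hd : ∀ i j, i ≠ j → |f1 j - f1 i| / 2 + |f2 j - f2 i| / 2 + |f3 j - f3 i| + w i + w j ≤ d i j)
    (a1 b1 a2 b2 a3 b3 : Fin (n + 1)) :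
    (f1 a1 - f1 b1) + (f2 a2 - f2 b2) + 2 * (f3 a3 - f3 b3) + 2 * ∑ i, w i ≤
      ∑ i, d (σ i) (σ (finRotate (n + 1) i)) := by
  have hne : ∀ i, σ i ≠ σ (finRotate (n + 1) i) := by
    intro i h
    have h2 := σ.injective h
    rw [finRotate_add] at h2
    have h3 : (1 : Fin (n + 1)) = 0 := by
      have := congrArg (fun z => z - i) h2
      simpa using this.symm
    have h4 := congrArg Fin.val h3
    have : n ≠ 0 := by omega
    simp at h4
    omega
  have hvar : ∀ (f : Fin (n + 1) → ℝ) (a b : Fin (n + 1)), 2 * (f a - f b) ≤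
      ∑ i, |f (σ (finRotate (n + 1) i)) - f (σ i)| := by
    intro f a b
    have := closed_var (fun i => f (σ i)) (σ.symm a) (σ.symm b)
    simpa using this
  have h1 := hvar f1 a1 b1
  have h2 := hvar f2 a2 b2
  have h3 := hvar f3 a3 b3
  have hw1 : ∑ i, w (σ i) = ∑ i, w i := Equiv.sum_comp σ w
  have hw2 : ∑ i, w (σ (finRotate (n + 1) i)) = ∑ i, w i := by
    rw [Equiv.sum_comp (finRotate (n + 1)) (fun i => w (σ i))]
    exact hw1
  have hsum : ∑ i, (|f1 (σ (finRotate (n + 1) i)) - f1 (σ i)| / 2 +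
      |f2 (σ (finRotate (n + 1) i)) - f2 (σ i)| / 2 +
      |f3 (σ (finRotate (n + 1) i)) - f3 (σ i)| + w (σ i) + w (σ (finRotate (n + 1) i))) ≤
      ∑ i, d (σ i) (σ (finRotate (n + 1) i)) :=
    Finset.sum_le_sum fun i _ => hd _ _ (hne i)
  simp only [Finset.sum_add_distrib, ← Finset.sum_div] at hsum
  rw [hw1, hw2] at hsum
  linarith

end Pool.Agent.Helper88.ETSP
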