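import Pool.Agent.Helper88.ETSP.Cert

namespace Pool.Agent.Helper88.ETSP

open Pool.Agent.Helper52.ETSP (Instance)

open Finset

variable {m : ℕ} (v : Fin m → ℕ × ℕ)

/-- horizontal extent of the `k`-th segment -/
def sx (k : ℕ) : ℕ := if h : 1 ≤ k ∧ (k - 1) / 2 < m then (v ⟨(k - 1) / 2, h.2⟩).1 else 1
/-- vertical extent of the `k`-th segment -/
def sy (k : ℕ) : ℕ := if h : 1 ≤ k ∧ (k - 1) / 2 < m then (v ⟨(k - 1) / 2, h.2⟩).2 else 0
def ha (k : ℕ) : ℕ := if k % 2 = 1 then 0 else sy v k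
def hb (k : ℕ) : ℕ := if k % 2 = 1 then sy v k else 0

theorem seg_eq (k : ℕ) : seg v k =
    ((((2 * spc v * k : ℕ) : ℤ), (ha v k : ℤ)),
      (((2 * spc v * k + sx v k : ℕ) : ℤ), (hb v k : ℤ))) := by
  unfold seg sx ha hb sy
  by_cases h : 1 ≤ k ∧ (k - 1) / 2 < m
  · by_cases h2 : k % 2 = 1 <;> simp [h, h2]
  · by_cases h2 : k % 2 = 1 <;> simp [h, h2]

theorem hb_eq_ha (k : ℕ) : hb v k = ha v (k + 1) := by
  unfold hb ha sy
  rcases Nat.even_or_odd' k with ⟨c, rfl | rfl⟩
  · have h1 : (2 * c) % 2 ≠ 1 := by omega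
    have h2 : (2 * c + 1) % 2 = 1 := by omega
    simp [h2]
  · have h1 : (2 * c + 1) % 2 = 1 := by omega
    have h2 : ¬ (2 * c + 1 + 1) % 2 = 1 := by omega
    have h3 : (2 * c + 1 - 1) / 2 = c := by omega
    have h4 : (2 * c + 1 + 1 - 1) / 2 = c := by omega
    simp only [h1, h2, if_true, if_false, h3, h4]
    by_cases hc : c < m <;> simp [hc]

theorem maxC_pos : 1 ≤ maxC v := by unfold maxC; omega

theorem le_maxC (i : Fin m) : (v i).1 + (v i).2 ≤ maxC v := by
  unfold maxC
  have := Finset.single_le_sum (f := fun i => (v i).1 + (v i).2) (fun _ _ => Nat.zero_le _)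
    (Finset.mem_univ i)
  omega

theorem sx_le (k : ℕ) : sx v k ≤ maxC v := by
  unfold sx
  split_ifs with h
  · have := le_maxC v ⟨(k - 1) / 2, h.2⟩; omega
  · exact maxC_pos v

theorem sy_le (k : ℕ) : sy v k ≤ maxC v := by
  unfold sy
  split_ifs with h
  · have := le_maxC v ⟨(k - 1) / 2, h.2⟩; omega
  · omega

/-- length of the `k`-th segment -/
noncomputable def ell (k : ℕ) : ℝ := Real.sqrt ((sx v k : ℝ) ^ 2 + (sy v k : ℝ) ^ 2)

/-- half of the excess of the length over the horizontal extent -/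
noncomputable def om (k : ℕ) : ℝ := (ell v k - sx v k) / 2

theorem sx_le_ell (k : ℕ) : (sx v k : ℝ) ≤ ell v k := by
  unfold ell
  apply Real.le_sqrt_of_sq_le
  nlinarith [sq_nonneg (sy v k : ℝ)]

theorem ell_le (k : ℕ) : ell v k ≤ sx v k + sy v k := by
  unfold ell
  apply Real.sqrt_le_iff.2
  constructor
  · positivity
  · have h1 : (0 : ℝ) ≤ sx v k := Nat.cast_nonneg _
    have h2 : (0 : ℝ) ≤ sy v k := Nat.cast_nonneg _
    nlinarith [mul_nonneg h1 h2]

theorem om_nonneg (k : ℕ) : 0 ≤ om v k := by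
  unfold om
  have := sx_le_ell v k
  linarith

theorem om_le (k : ℕ) : om v k ≤ (maxC v : ℝ) / 2 := by
  unfold om
  have h1 := ell_le v k
  have h2 : (sy v k : ℝ) ≤ maxC v := by exact_mod_cast sy_le v k
  linarith

theorem om_end (k : ℕ) (h : ¬ (1 ≤ k ∧ (k - 1) / 2 < m)) : om v k = 0 := by
  have h1 : sx v k = 1 := by unfold sx; simp [h]
  have h2 : sy v k = 0 := by unfold sy; simp [h]
  unfold om ell
  rw [h1, h2]
  simp

/-- the accumulated reductions -/
noncomputable def RR (k : ℕ) : ℝ := ∑ j ∈ range k, (om v j + om v (j + 1))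

theorem RR_mono_lower {k k' : ℕ} (h : k < k') : om v k + om v k' ≤ RR v k' - RR v k := by
  unfold RR
  obtain ⟨d, rfl⟩ : ∃ d, k' = k + 1 + d := ⟨k' - (k + 1), by omega⟩
  clear h
  induction d with
  | zero =>
    rw [add_zero, Finset.sum_range_succ]
    linarith
  | succ d ih =>
    rw [show k + 1 + (d + 1) = (k + 1 + d) + 1 by omega, Finset.sum_range_succ]
    have := om_nonneg v (k + 1 + d)
    linarith

theorem RR_upper {k k' : ℕ} (h : k ≤ k') : RR v k' - RR v k ≤ (maxC v : ℝ) * (k' - k) := by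
  unfold RR
  obtain ⟨d, rfl⟩ : ∃ d, k' = k + d := ⟨k' - k, by omega⟩
  clear h
  induction d with
  | zero => simp
  | succ d ih =>
    rw [show k + (d + 1) = (k + d) + 1 by omega, Finset.sum_range_succ]
    have h1 := om_le v (k + d)
    have h2 := om_le v (k + d + 1)
    push_cast at ih ⊢
    nlinarith

/-- abscissa of the end `i` (top point number `i`, `1 ≤ i ≤ 4m+4`) -/
def px (i : ℕ) : ℕ := 2 * spc v * ((i - 1) / 2) + if i % 2 = 1 then 0 else sx v ((i - 1) / 2)
def py (i : ℕ) : ℕ := if i % 2 = 1 then ha v ((i - 1) / 2) else hb v ((i - 1) / 2)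

theorem redPt_top {i : ℕ} (h1 : 1 ≤ i) (h2 : i ≤ 4 * m + 4) :
    redPt v i = ((px v i : ℤ), (py v i : ℤ)) := by
  unfold redPt
  rw [if_neg (by omega), if_neg (by omega), seg_eq]
  unfold px py
  by_cases h : i % 2 = 1
  · rw [if_pos h, if_pos h, if_pos h]; simp
  · rw [if_neg h, if_neg h, if_neg h]

/-- reduced abscissa -/
noncomputable def xi (i : ℕ) : ℝ := px v i - RR v ((i - 1) / 2)

theorem spc_ge : (maxC v : ℝ) * 5 ≤ spc v := by
  unfold spc
  push_cast
  have h1 : (0 : ℝ) ≤ m := Nat.cast_nonneg _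
  have h2 : (0 : ℝ) ≤ maxC v := Nat.cast_nonneg _
  nlinarith [mul_nonneg h1 h2]

theorem xi_pair {i j : ℕ} (hij : (i - 1) / 2 < (j - 1) / 2) :
    xi v i ≤ xi v j ∧ (xi v j - xi v i) + om v ((i - 1) / 2) + om v ((j - 1) / 2) ≤
      (px v j : ℝ) - px v i := by
  set k := (i - 1) / 2 with hk
  set k' := (j - 1) / 2 with hk'
  have h1 := RR_mono_lower v hij
  have h2 := RR_upper v hij.le
  have h3 := spc_ge v
  have hM : (1 : ℝ) ≤ maxC v := by exact_mod_cast maxC_pos v
  have hkk : (k : ℝ) + 1 ≤ k' := by exact_mod_cast hij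
  have hpi : (px v i : ℝ) ≤ 2 * spc v * k + maxC v := by
    unfold px
    rw [← hk]
    split_ifs
    · push_cast; linarith
    · push_cast
      have : (sx v k : ℝ) ≤ maxC v := by exact_mod_cast sx_le v k
      linarith
  have hpj : 2 * (spc v : ℝ) * k' ≤ px v j := by
    unfold px
    rw [← hk']
    push_cast
    split_ifs
    · simp
    · have : (0 : ℝ) ≤ sx v k' := Nat.cast_nonneg _
      linarith
  unfold xi
  rw [← hk, ← hk']
  constructor
  · nlinarith [mul_le_mul_of_nonneg_right h3 (by linarith : (0 : ℝ) ≤ (k' : ℝ) - k)]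
  · linarith

theorem xi_same {i : ℕ} (hi : i % 2 = 1) : xi v (i + 1) - xi v i = sx v ((i - 1) / 2) := by
  unfold xi px
  have h1 : (i + 1 - 1) / 2 = (i - 1) / 2 := by omega
  have h2 : ¬ (i + 1) % 2 = 1 := by omega
  rw [h1, if_pos hi, if_neg h2]
  push_cast
  ring

theorem xi_mono {i j : ℕ} (hi : 1 ≤ i) (hij : i ≤ j) : xi v i ≤ xi v j := by
  rcases lt_or_ge ((i - 1) / 2) ((j - 1) / 2) with h | h
  · exact (xi_pair v h).1
  · rcases eq_or_lt_of_le hij with rfl | h2
    · exact le_rfl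
    · have h3 : j = i + 1 := by omega
      subst h3
      have h4 : i % 2 = 1 := by omega
      have := xi_same v h4
      have h5 : (0 : ℝ) ≤ sx v ((i - 1) / 2) := Nat.cast_nonneg _
      linarith

/-- total reduced width -/
noncomputable def GG : ℝ := xi v (4 * m + 4)

theorem xi_one : xi v 1 = 0 := by
  unfold xi px RR
  simp

theorem xi_nonneg {i : ℕ} (hi : 1 ≤ i) : 0 ≤ xi v i := by
  rw [← xi_one v]; exact xi_mono v le_rfl hi

theorem xi_le_GG {i : ℕ} (hi : 1 ≤ i) (h2 : i ≤ 4 * m + 4) : xi v i ≤ GG v := xi_mono v hi h2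

theorem sx_last : sx v (2 * m + 1) = 1 := by
  unfold sx
  have : ¬ (1 ≤ 2 * m + 1 ∧ (2 * m + 1 - 1) / 2 < m) := by omega
  simp [this]

theorem px_last : px v (4 * m + 4) = wid v := by
  unfold px wid
  have h1 : (4 * m + 4 - 1) / 2 = 2 * m + 1 := by omega
  have h2 : ¬ (4 * m + 4) % 2 = 1 := by omega
  rw [h1, if_neg h2, sx_last]

theorem GG_eq : GG v = wid v - RR v (2 * m + 1) := by
  unfold GG xi
  rw [px_last]
  have h1 : (4 * m + 4 - 1) / 2 = 2 * m + 1 := by omega
  rw [h1]

theorem RR_nonneg (k : ℕ) : 0 ≤ RR v k := by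
  unfold RR
  exact Finset.sum_nonneg fun j _ => add_nonneg (om_nonneg v j) (om_nonneg v (j + 1))

theorem key_sq (k : ℕ) : 2 * (wid v : ℝ) * om v k + om v k ^ 2 ≤ (spc v : ℝ) ^ 2 := by
  have h1 := om_le v k
  have h0 := om_nonneg v k
  have hM : (1 : ℝ) ≤ maxC v := by exact_mod_cast maxC_pos v
  have hm : (0 : ℝ) ≤ m := Nat.cast_nonneg _
  have hD : (spc v : ℝ) = 5 * (m + 1) * maxC v := by unfold spc; push_cast; ring
  have hX : (wid v : ℝ) = 2 * spc v * (2 * m + 1) + 1 := by unfold wid; push_cast; ring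
  set M : ℝ := (maxC v : ℝ)
  set D : ℝ := (spc v : ℝ)
  have hD1 : 5 ≤ D := by rw [hD]; nlinarith
  have hX2 : (wid v : ℝ) ≤ 4 * D * (m + 1) := by rw [hX]; nlinarith
  have hX0 : (0 : ℝ) ≤ wid v := Nat.cast_nonneg _
  have e1 : 2 * (wid v : ℝ) * om v k ≤ 4 * D * (m + 1) * M := by nlinarith
  have e2 : om v k ^ 2 ≤ M ^ 2 / 4 := by nlinarith
  have e3 : 4 * D * (m + 1) * M = 4 / 5 * D ^ 2 := by rw [hD]; ring
  have e4 : M ≤ D / 5 := by rw [hD]; nlinarith
  have e5 : M ^ 2 ≤ D ^ 2 / 25 := by nlinarith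
  nlinarith

theorem edist_ge_fst (p q : ℤ × ℤ) : |((p.1 : ℝ) - q.1)| ≤ Helper52.ETSP.edist p q := by
  unfold Helper52.ETSP.edist
  apply Real.abs_le_sqrt
  push_cast
  nlinarith [sq_nonneg ((p.2 : ℝ) - q.2)]

theorem edist_ge_snd (p q : ℤ × ℤ) : |((p.2 : ℝ) - q.2)| ≤ Helper52.ETSP.edist p q := by
  unfold Helper52.ETSP.edist
  apply Real.abs_le_sqrt
  push_cast
  nlinarith [sq_nonneg ((p.1 : ℝ) - q.1)]

theorem edist_comm (p q : ℤ × ℤ) : Helper52.ETSP.edist p q = Helper52.ETSP.edist q p := by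
  unfold Helper52.ETSP.edist
  congr 1
  push_cast
  ring

theorem edist_seg (k : ℕ) : Helper52.ETSP.edist (seg v k).1 (seg v k).2 = ell v k := by
  rw [seg_eq]
  unfold Helper52.ETSP.edist ell ha hb
  congr 1
  split_ifs <;> (push_cast; ring)

/-- lower bound for a far and deep point -/
theorem edist_far {p q : ℤ × ℤ} {k : ℕ} (h1 : (spc v : ℝ) ≤ |(p.1 : ℝ) - q.1|)
    (h2 : (wid v : ℝ) ≤ |(p.2 : ℝ) - q.2|) : (wid v : ℝ) + om v k ≤ Helper52.ETSP.edist p q := by
  unfold Helper52.ETSP.edist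
  apply Real.le_sqrt_of_sq_le
  push_cast
  have h3 := key_sq v k
  have hs : (0 : ℝ) ≤ spc v := Nat.cast_nonneg _
  have hw : (0 : ℝ) ≤ wid v := Nat.cast_nonneg _
  have e1 : (spc v : ℝ) ^ 2 ≤ ((p.1 : ℝ) - q.1) ^ 2 := by
    rw [← sq_abs ((p.1 : ℝ) - q.1)]
    exact pow_le_pow_left₀ hs h1 2
  have e2 : (wid v : ℝ) ^ 2 ≤ ((p.2 : ℝ) - q.2) ^ 2 := by
    rw [← sq_abs ((p.2 : ℝ) - q.2)]
    exact pow_le_pow_left₀ hw h2 2
  nlinarith

/-- The weights of the certificate. -/
noncomputable def ww (i : ℕ) : ℝ :=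
  if i = 0 ∨ i = 4 * m + 5 then (wid v : ℝ) / 2 else om v ((i - 1) / 2)
noncomputable def ff1 (i : ℕ) : ℝ := if i = 0 ∨ i = 4 * m + 5 then GG v else xi v i
noncomputable def ff2 (i : ℕ) : ℝ := if i = 0 ∨ i = 4 * m + 5 then 0 else xi v i
noncomputable def ff3 (i : ℕ) : ℝ :=
  if i = 0 ∨ i = 4 * m + 5 then 0 else ((wid v : ℝ) - GG v) / 2

theorem edge_lt {i j : ℕ} (hij : i < j) (hj : j ≤ 4 * m + 5) :
    |ff1 v j - ff1 v i| / 2 + |ff2 v j - ff2 v i| / 2 + |ff3 v j - ff3 v i| + ww v i + ww v j ≤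
      Helper52.ETSP.edist (redPt v i) (redPt v j) := by
  have hGX : GG v ≤ wid v := by
    rw [GG_eq]; have := RR_nonneg v (2 * m + 1); linarith
  have hw : (0 : ℝ) ≤ wid v := Nat.cast_nonneg _
  rcases Nat.eq_zero_or_pos i with rfl | hi
  · rcases eq_or_lt_of_le hj with rfl | hj2
    · -- both bottom points
      have e : redPt v (4 * m + 5) = ((wid v : ℤ), -(wid v : ℤ)) := by
        unfold redPt; simp
      have e0 : redPt v 0 = (0, -(wid v : ℤ)) := by unfold redPt; simp
      rw [e, e0]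
      have h1 := edist_ge_fst ((0 : ℤ), -(wid v : ℤ)) ((wid v : ℤ), -(wid v : ℤ))
      simp only [ff1, ff2, ff3, ww, true_or, or_true, if_true, sub_self, abs_zero]
      simp only [Int.cast_zero, zero_sub, Int.cast_natCast, abs_neg, abs_of_nonneg hw] at h1
      linarith
    · -- left bottom corner and a top point
      have hne : ¬ (j = 0 ∨ j = 4 * m + 5) := by omega
      have hξ0 := xi_nonneg v (i := j) (by omega)
      have hξG := xi_le_GG v (i := j) (by omega) (by omega)
      have e0 : redPt v 0 = (0, -(wid v : ℤ)) := by unfold redPt; simp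
      rw [e0, redPt_top v (by omega) (by omega)]
      have htot : |ff1 v j - ff1 v 0| / 2 + |ff2 v j - ff2 v 0| / 2 + |ff3 v j - ff3 v 0| +
          ww v 0 + ww v j = wid v + om v ((j - 1) / 2) := by
        simp only [ff1, ff2, ff3, ww, true_or, if_true, if_neg hne, sub_zero]
        rw [abs_of_nonpos (by linarith : xi v j - GG v ≤ 0), abs_of_nonneg hξ0,
          abs_of_nonneg (by linarith : (0 : ℝ) ≤ ((wid v : ℝ) - GG v) / 2)]
        ring
      rw [htot]
      have hpy : (0 : ℝ) ≤ py v j := Nat.cast_nonneg _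
      have h2 : (wid v : ℝ) ≤ |(((0 : ℤ), -(wid v : ℤ)).2 : ℝ) - (((px v j : ℤ), (py v j : ℤ)).2 : ℝ)| := by
        push_cast
        rw [abs_of_nonpos (by linarith)]
        linarith
      rcases Nat.eq_zero_or_pos ((j - 1) / 2) with hk | hk
      · rw [hk, om_end v 0 (by omega), add_zero]
        exact h2.trans (edist_ge_snd _ _)
      · refine edist_far v ?_ h2
        push_cast
        rw [zero_sub, abs_neg]
        have : (spc v : ℝ) ≤ px v j := by
          unfold px
          push_cast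
          have h5 : (1 : ℝ) ≤ (((j - 1) / 2 : ℕ) : ℝ) := by exact_mod_cast hk
          have h6 : (0 : ℝ) ≤ spc v := Nat.cast_nonneg _
          have h7 : (0 : ℝ) ≤ ((if j % 2 = 1 then 0 else (sx v ((j - 1) / 2) : ℝ))) := by
            split_ifs
            · exact le_rfl
            · exact Nat.cast_nonneg _
          have h8 : ((((if j % 2 = 1 then 0 else sx v ((j - 1) / 2)) : ℕ)) : ℝ) =
            (if j % 2 = 1 then 0 else (sx v ((j - 1) / 2) : ℝ)) := by
            split_ifs <;> simp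
          push_cast at h8 h5 ⊢
          nlinarith
        exact this.trans (le_abs_self _)
  · have hi0 : ¬ (i = 0 ∨ i = 4 * m + 5) := by omega
    rcases eq_or_lt_of_le hj with rfl | hj2
    · -- a top point and the right bottom corner
      have hξ0 := xi_nonneg v (i := i) (by omega)
      have hξG := xi_le_GG v (i := i) (by omega) (by omega)
      have e : redPt v (4 * m + 5) = ((wid v : ℤ), -(wid v : ℤ)) := by
        unfold redPt; simp
      rw [e, redPt_top v (by omega) (by omega)]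
      have htot : |ff1 v (4 * m + 5) - ff1 v i| / 2 + |ff2 v (4 * m + 5) - ff2 v i| / 2 +
          |ff3 v (4 * m + 5) - ff3 v i| + ww v i + ww v (4 * m + 5) =
          wid v + om v ((i - 1) / 2) := by
        simp only [ff1, ff2, ff3, ww, or_true, if_true, if_neg hi0, zero_sub, abs_neg]
        rw [abs_of_nonneg (by linarith : 0 ≤ GG v - xi v i), abs_of_nonneg hξ0,
          abs_of_nonneg (by linarith : (0 : ℝ) ≤ ((wid v : ℝ) - GG v) / 2)]
        ring
      rw [htot]
      have hpy : (0 : ℝ) ≤ py v i := Nat.cast_nonneg _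
      have h2 : (wid v : ℝ) ≤ |(((px v i : ℤ), (py v i : ℤ)).2 : ℝ) -
          (((wid v : ℤ), -(wid v : ℤ)).2 : ℝ)| := by
        push_cast
        rw [abs_of_nonneg (by linarith)]
        linarith
      rcases eq_or_lt_of_le (show (i - 1) / 2 ≤ 2 * m + 1 by omega) with hk | hk
      · rw [hk, om_end v (2 * m + 1) (by omega), add_zero]
        exact h2.trans (edist_ge_snd _ _)
      · refine edist_far v ?_ h2
        push_cast
        have : (spc v : ℝ) ≤ wid v - px v i := by
          have h3 := spc_ge v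
          have hM : (1 : ℝ) ≤ maxC v := by exact_mod_cast maxC_pos v
          have h5 : ((((i - 1) / 2 : ℕ)) : ℝ) ≤ 2 * m := by
            have : (i - 1) / 2 ≤ 2 * m := by omega
            exact_mod_cast this
          have h6 : (px v i : ℝ) ≤ 2 * spc v * (((i - 1) / 2 : ℕ) : ℝ) + maxC v := by
            unfold px
            split_ifs
            · push_cast; linarith
            · push_cast
              have : (sx v ((i - 1) / 2) : ℝ) ≤ maxC v := by exact_mod_cast sx_le v _
              linarith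
          have hX : (wid v : ℝ) = 2 * spc v * (2 * m + 1) + 1 := by unfold wid; push_cast; ring
          have h7 : (0 : ℝ) ≤ spc v := Nat.cast_nonneg _
          nlinarith [mul_le_mul_of_nonneg_left h5 h7]
        rw [abs_sub_comm]
        exact this.trans (le_abs_self _)
    · -- two top points
      have hj0 : ¬ (j = 0 ∨ j = 4 * m + 5) := by omega
      rw [redPt_top v (by omega) (by omega), redPt_top v (by omega) (by omega)]
      simp only [ff1, ff2, ff3, ww, if_neg hi0, if_neg hj0, sub_self, abs_zero]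
      have hmono := xi_mono v (i := i) (j := j) (by omega) hij.le
      rw [abs_of_nonneg (by linarith : 0 ≤ xi v j - xi v i)]
      rcases lt_or_ge ((i - 1) / 2) ((j - 1) / 2) with h | h
      · have h1 := (xi_pair v h).2
        have h2 := edist_ge_fst ((px v i : ℤ), (py v i : ℤ)) ((px v j : ℤ), (py v j : ℤ))
        push_cast at h2
        have h3 := neg_abs_le ((px v i : ℝ) - px v j)
        linarith
      · have h3 : j = i + 1 := by omega
        subst h3
        have h4 : i % 2 = 1 := by omega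
        have h5 := xi_same v h4
        have h6 : (i + 1 - 1) / 2 = (i - 1) / 2 := by omega
        have h7 := edist_seg v ((i - 1) / 2)
        rw [seg_eq] at h7
        have h8 : ((px v i : ℤ), (py v i : ℤ)) =
            (((2 * spc v * ((i - 1) / 2) : ℕ) : ℤ), (ha v ((i - 1) / 2) : ℤ)) := by
          unfold px py; rw [if_pos h4, if_pos h4]; simp
        have h9 : ((px v (i + 1) : ℤ), (py v (i + 1) : ℤ)) =
            (((2 * spc v * ((i - 1) / 2) + sx v ((i - 1) / 2) : ℕ) : ℤ),
              (hb v ((i - 1) / 2) : ℤ)) := by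
          unfold px py
          have h10 : ¬ (i + 1) % 2 = 1 := by omega
          rw [if_neg h10, if_neg h10, h6]
        rw [h8, h9]
        rw [h7, h5, h6]
        unfold om
        linarith

theorem edge {i j : ℕ} (hij : i ≠ j) (hi : i ≤ 4 * m + 5) (hj : j ≤ 4 * m + 5) :
    |ff1 v j - ff1 v i| / 2 + |ff2 v j - ff2 v i| / 2 + |ff3 v j - ff3 v i| + ww v i + ww v j ≤
      Helper52.ETSP.edist (redPt v i) (redPt v j) := by
  rcases lt_or_gt_of_ne hij with h | h
  · exact edge_lt v h hj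
  · have := edge_lt v h hi
    rw [edist_comm, abs_sub_comm (ff1 v j), abs_sub_comm (ff2 v j), abs_sub_comm (ff3 v j)]
    linarith

end Pool.Agent.Helper88.ETSP
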