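import Pool.Agent.Helper88.ETSP.Geom

namespace Pool.Agent.Helper88.ETSP

open Pool.Agent.Helper52.ETSP (Instance)

open Finset

variable {m : ℕ} (v : Fin m → ℕ × ℕ)

theorem sum_range_two_mul (F : ℕ → ℝ) (K : ℕ) :
    ∑ i ∈ range (2 * K), F i = ∑ k ∈ range K, (F (2 * k) + F (2 * k + 1)) := by
  induction K with
  | zero => simp
  | succ K ih =>
    rw [show 2 * (K + 1) = 2 * K + 1 + 1 by ring, Finset.sum_range_succ, Finset.sum_range_succ, ih,
      Finset.sum_range_succ]
    ring

theorem RR_total : RR v (2 * m + 1) = 2 * ∑ k ∈ range (2 * m + 2), om v k := by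
  have h : ∀ n, RR v n = 2 * ∑ k ∈ range (n + 1), om v k - om v 0 - om v n := by
    intro n
    induction n with
    | zero => simp [RR]; ring
    | succ n ih =>
      rw [Finset.sum_range_succ]
      have : RR v (n + 1) = RR v n + (om v n + om v (n + 1)) := by
        unfold RR; rw [Finset.sum_range_succ]
      rw [this, ih]
      ring
  rw [h, om_end v 0 (by omega), om_end v (2 * m + 1) (by omega)]
  ring

theorem sum_ww : ∑ i : Fin (4 * m + 5 + 1), ww v i = wid v + 2 * ∑ k ∈ range (2 * m + 2), om v k := by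
  rw [Fin.sum_univ_eq_sum_range (fun i => ww v i) (4 * m + 5 + 1), Finset.sum_range_succ,
    show 4 * m + 5 = (2 * (2 * m + 2)) + 1 by ring, Finset.sum_range_succ', sum_range_two_mul]
  have h0 : ww v 0 = (wid v : ℝ) / 2 := by simp [ww]
  have h1 : ww v (2 * (2 * m + 2) + 1) = (wid v : ℝ) / 2 := by
    unfold ww
    rw [if_pos (by right; ring)]
  have h2 : ∀ k ∈ range (2 * m + 2), ww v (2 * k + 1) + ww v (2 * k + 1 + 1) = 2 * om v k := by
    intro k hk
    rw [Finset.mem_range] at hk
    unfold ww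
    rw [if_neg (by omega), if_neg (by omega)]
    have e1 : (2 * k + 1 - 1) / 2 = k := by omega
    have e2 : (2 * k + 1 + 1 - 1) / 2 = k := by omega
    rw [e1, e2]
    ring
  rw [Finset.sum_congr rfl h2, h0, h1, ← Finset.mul_sum]
  ring

theorem lower (σ : Equiv.Perm (Fin (4 * m + 5 + 1))) :
    4 * (wid v : ℝ) + 2 * ∑ k ∈ range (2 * m + 2), om v k ≤
      ∑ i, Helper52.ETSP.edist (redPt v (σ i)) (redPt v (σ (finRotate _ i))) := by
  have h := cert (n := 4 * m + 5) (by omega)
    (fun i j => Helper52.ETSP.edist (redPt v i) (redPt v j)) σ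
    (fun i => ww v i) (fun i => ff1 v i) (fun i => ff2 v i) (fun i => ff3 v i)
    (fun i j hij => edge v (fun h => hij (Fin.ext h)) (by omega) (by omega))
    ⟨4 * m + 4, by omega⟩ ⟨1, by omega⟩ ⟨4 * m + 4, by omega⟩ ⟨1, by omega⟩
    ⟨1, by omega⟩ ⟨0, by omega⟩
  refine le_trans ?_ h
  have e1 : ff1 v (4 * m + 4) = GG v := by
    unfold ff1 GG
    rw [if_neg (by omega)]
  have e2 : ff1 v 1 = 0 := by unfold ff1; rw [if_neg (by omega), xi_one]
  have e3 : ff2 v (4 * m + 4) = GG v := by
    unfold ff2 GG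
    rw [if_neg (by omega)]
  have e4 : ff2 v 1 = 0 := by unfold ff2; rw [if_neg (by omega), xi_one]
  have e5 : ff3 v 1 = ((wid v : ℝ) - GG v) / 2 := by unfold ff3; rw [if_neg (by omega)]
  have e6 : ff3 v 0 = 0 := by unfold ff3; rw [if_pos (by omega)]
  simp only [e1, e2, e3, e4, e5, e6]
  rw [sum_ww, GG_eq, RR_total]
  linarith

theorem upper : ∑ i : Fin (4 * m + 5 + 1), Helper52.ETSP.edist (redPt v i) (redPt v (finRotate _ i)) =
    4 * (wid v : ℝ) + 2 * ∑ k ∈ range (2 * m + 2), om v k := by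
  rw [Fin.sum_univ_castSucc]
  have hlast : finRotate (4 * m + 5 + 1) (Fin.last (4 * m + 5)) = 0 := finRotate_last
  have hcs : ∀ i : Fin (4 * m + 5), ((finRotate (4 * m + 5 + 1) i.castSucc : Fin _) : ℕ) = i + 1 := by
    intro i
    rw [finRotate_add]
    rw [Fin.coeSucc_eq_succ]
    simp
  have hA : redPt v 0 = (0, -(wid v : ℤ)) := by unfold redPt; simp
  have hB : redPt v (4 * m + 5) = ((wid v : ℤ), -(wid v : ℤ)) := by
        unfold redPt; simp
  have hw : (0 : ℝ) ≤ wid v := Nat.cast_nonneg _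
  have e1 : Helper52.ETSP.edist (redPt v (Fin.last (4 * m + 5) : ℕ)) (redPt v ((finRotate (4 * m + 5 + 1)
      (Fin.last (4 * m + 5)) : Fin _) : ℕ)) = wid v := by
    rw [hlast]
    have : ((Fin.last (4 * m + 5) : Fin _) : ℕ) = 4 * m + 5 := rfl
    rw [this, hB]
    have : (((0 : Fin (4 * m + 5 + 1)) : ℕ)) = 0 := rfl
    rw [this, hA]
    unfold Helper52.ETSP.edist
    simp [Real.sqrt_sq hw]
  rw [e1]
  have e2 : ∑ i : Fin (4 * m + 5), Helper52.ETSP.edist (redPt v (i.castSucc : ℕ))
      (redPt v ((finRotate (4 * m + 5 + 1) i.castSucc : Fin _) : ℕ)) =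
      ∑ i ∈ range (4 * m + 5), Helper52.ETSP.edist (redPt v i) (redPt v (i + 1)) := by
    rw [← Fin.sum_univ_eq_sum_range (fun i => Helper52.ETSP.edist (redPt v i) (redPt v (i + 1)))]
    apply Finset.sum_congr rfl
    intro i _
    rw [hcs]
    rfl
  rw [e2, show 4 * m + 5 = (2 * (2 * m + 2)) + 1 by ring, Finset.sum_range_succ', sum_range_two_mul,
    Finset.sum_range_succ]
  have e3 : Helper52.ETSP.edist (redPt v 0) (redPt v (0 + 1)) = wid v := by
    rw [hA, redPt_top v (by omega) (by omega)]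
    have hp : px v (0 + 1) = 0 := by unfold px; simp
    have hq : py v (0 + 1) = 0 := by
      unfold py ha sy; simp
    rw [hp, hq]
    unfold Helper52.ETSP.edist
    simp [Real.sqrt_sq hw]
  have hsegpt : ∀ k, k ≤ 2 * m + 1 → redPt v (2 * k + 1) = (seg v k).1 ∧
      redPt v (2 * k + 1 + 1) = (seg v k).2 := by
    intro k hk
    unfold redPt
    have f1 : (2 * k + 1) % 2 = 1 := by omega
    have f2 : ¬ (2 * k + 1 + 1) % 2 = 1 := by omega
    have f3 : (2 * k + 1 - 1) / 2 = k := by omega
    have f4 : (2 * k + 1 + 1 - 1) / 2 = k := by omega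
    constructor
    · rw [if_neg (by omega), if_neg (by omega), if_pos f1, f3]
    · rw [if_neg (by omega), if_neg (by omega), if_neg f2, f4]
  have e4 : ∀ k ∈ range (2 * m + 1), Helper52.ETSP.edist (redPt v (2 * k + 1)) (redPt v (2 * k + 1 + 1)) +
      Helper52.ETSP.edist (redPt v (2 * k + 1 + 1)) (redPt v (2 * k + 1 + 1 + 1)) =
      2 * spc v + 2 * om v k := by
    intro k hk
    rw [Finset.mem_range] at hk
    obtain ⟨g1, g2⟩ := hsegpt k (by omega)
    obtain ⟨g3, -⟩ := hsegpt (k + 1) (by omega)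
    rw [g1, g2, edist_seg]
    rw [show 2 * k + 1 + 1 + 1 = 2 * (k + 1) + 1 by ring, g3, seg_eq, seg_eq]
    have hh := hb_eq_ha v k
    unfold Helper52.ETSP.edist
    simp only [hh, sub_self]
    have hsx : (sx v k : ℝ) ≤ maxC v := by exact_mod_cast sx_le v k
    have hs := spc_ge v
    have hM : (1 : ℝ) ≤ maxC v := by exact_mod_cast maxC_pos v
    push_cast
    rw [show (2 * (spc v : ℝ) * k + sx v k - 2 * spc v * (k + 1)) ^ 2 + 0 ^ 2 =
      (2 * (spc v : ℝ) - sx v k) ^ 2 by ring]
    rw [Real.sqrt_sq (by nlinarith)]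
    unfold om
    ring
  rw [Finset.sum_congr rfl e4]
  obtain ⟨g1, g2⟩ := hsegpt (2 * m + 1) le_rfl
  have e5 : Helper52.ETSP.edist (redPt v (2 * (2 * m + 1) + 1)) (redPt v (2 * (2 * m + 1) + 1 + 1)) = 1 := by
    rw [g1, g2, edist_seg]
    have := om_end v (2 * m + 1) (by omega)
    unfold om at this
    rw [sx_last] at this
    push_cast at this
    linarith
  have e6 : Helper52.ETSP.edist (redPt v (2 * (2 * m + 1) + 1 + 1)) (redPt v (2 * (2 * m + 1) + 1 + 1 + 1)) =
      wid v := by
    have f1 : 2 * (2 * m + 1) + 1 + 1 + 1 = 4 * m + 5 := by ring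
    have f2 : 2 * (2 * m + 1) + 1 + 1 = 4 * m + 4 := by ring
    rw [f1, f2, hB, redPt_top v (by omega) (by omega), px_last]
    have hq : py v (4 * m + 4) = 0 := by
      unfold py hb sy
      have f3 : ¬ (4 * m + 4) % 2 = 1 := by omega
      have f4 : (4 * m + 4 - 1) / 2 = 2 * m + 1 := by omega
      rw [if_neg f3, f4]
      have f5 : ¬ (1 ≤ 2 * m + 1 ∧ (2 * m + 1 - 1) / 2 < m) := by omega
      simp
    rw [hq]
    unfold Helper52.ETSP.edist
    simp [Real.sqrt_sq hw]
  rw [e3, e5, e6]
  rw [Finset.sum_add_distrib, ← Finset.mul_sum, Finset.sum_range_succ (fun k => om v k) (2 * m + 1),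
    om_end v (2 * m + 1) (by omega)]
  have hX : (wid v : ℝ) = 2 * spc v * (2 * m + 1) + 1 := by unfold wid; push_cast; ring
  have hm : ∑ x ∈ range (2 * m + 1), 2 * om v x = 2 * ∑ x ∈ range (2 * m + 1), om v x := by
    rw [Finset.mul_sum]
  simp only [Finset.sum_const, Finset.card_range, nsmul_eq_mul]
  push_cast
  rw [hm]
  linarith

theorem sum_om : 2 * ∑ k ∈ range (2 * m + 2), om v k =
    2 * ∑ i, Real.sqrt (((v i).1 : ℝ) ^ 2 + ((v i).2 : ℝ) ^ 2) - 2 * ∑ i, ((v i).1 : ℝ) := by
  rw [Finset.sum_range_succ, om_end v (2 * m + 1) (by omega), add_zero, Finset.sum_range_succ',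
    om_end v 0 (by omega), add_zero, sum_range_two_mul]
  have h : ∀ i : Fin m, om v (2 * i + 1) + om v (2 * i + 1 + 1) =
      Real.sqrt (((v i).1 : ℝ) ^ 2 + ((v i).2 : ℝ) ^ 2) - (v i).1 := by
    intro i
    have f1 : (2 * (i : ℕ) + 1 - 1) / 2 = i := by omega
    have f2 : (2 * (i : ℕ) + 1 + 1 - 1) / 2 = i := by omega
    have g1 : om v (2 * i + 1) =
        (Real.sqrt (((v i).1 : ℝ) ^ 2 + ((v i).2 : ℝ) ^ 2) - (v i).1) / 2 := by
      unfold om ell sx sy
      have c1 : 1 ≤ 2 * (i : ℕ) + 1 ∧ (2 * (i : ℕ) + 1 - 1) / 2 < m := by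
        constructor
        · omega
        · rw [f1]; exact i.2
      rw [dif_pos c1, dif_pos c1]
      have : (⟨(2 * (i : ℕ) + 1 - 1) / 2, c1.2⟩ : Fin m) = i := Fin.ext f1
      rw [this]
    have g2 : om v (2 * i + 1 + 1) =
        (Real.sqrt (((v i).1 : ℝ) ^ 2 + ((v i).2 : ℝ) ^ 2) - (v i).1) / 2 := by
      unfold om ell sx sy
      have c1 : 1 ≤ 2 * (i : ℕ) + 1 + 1 ∧ (2 * (i : ℕ) + 1 + 1 - 1) / 2 < m := by
        constructor
        · omega
        · rw [f2]; exact i.2
      rw [dif_pos c1, dif_pos c1]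
      have : (⟨(2 * (i : ℕ) + 1 + 1 - 1) / 2, c1.2⟩ : Fin m) = i := Fin.ext f2
      rw [this]
    rw [g1, g2]
    ring
  rw [← Fin.sum_univ_eq_sum_range (fun k => om v (2 * k + 1) + om v (2 * k + 1 + 1)) m,
    Finset.sum_congr rfl (fun i _ => h i), Finset.sum_sub_distrib]
  ring

theorem redPt_inj (hv : ∀ i, v i ≠ (0, 0)) :
    Function.Injective (fun i : Fin (4 * m + 5 + 1) => redPt v i) := by
  have key : ∀ i j : ℕ, i < j → j ≤ 4 * m + 5 → redPt v i ≠ redPt v j := by
    intro i j hij hj heq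
    have hw : 0 < wid v := by unfold wid; omega
    rcases Nat.eq_zero_or_pos i with rfl | hi
    · have e0 : redPt v 0 = (0, -(wid v : ℤ)) := by unfold redPt; simp
      rcases eq_or_lt_of_le hj with rfl | hj2
      · have e : redPt v (4 * m + 5) = ((wid v : ℤ), -(wid v : ℤ)) := by
          unfold redPt; simp
        rw [e0, e] at heq
        have := congrArg Prod.fst heq
        simp only at this
        omega
      · rw [e0, redPt_top v (by omega) (by omega)] at heq
        have := congrArg Prod.snd heq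
        simp only at this
        omega
    · rcases eq_or_lt_of_le hj with rfl | hj2
      · have e : redPt v (4 * m + 5) = ((wid v : ℤ), -(wid v : ℤ)) := by
          unfold redPt; simp
        rw [e, redPt_top v (by omega) (by omega)] at heq
        have := congrArg Prod.snd heq
        simp only at this
        omega
      · rw [redPt_top v (by omega) (by omega), redPt_top v (by omega) (by omega)] at heq
        have h1 := congrArg Prod.fst heq
        have h2 := congrArg Prod.snd heq
        simp only [Nat.cast_inj] at h1 h2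
        have hM := maxC_pos v
        have hs : maxC v * 5 ≤ spc v := by
          have := spc_ge v
          exact_mod_cast this
        rcases lt_or_ge ((i - 1) / 2) ((j - 1) / 2) with h | h
        · unfold px at h1
          have h3 := sx_le v ((i - 1) / 2)
          have h4 : 2 * spc v * ((i - 1) / 2) + 2 * spc v ≤ 2 * spc v * ((j - 1) / 2) := by
            have : (i - 1) / 2 + 1 ≤ (j - 1) / 2 := h
            calc 2 * spc v * ((i - 1) / 2) + 2 * spc v = 2 * spc v * ((i - 1) / 2 + 1) := by ring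
              _ ≤ _ := Nat.mul_le_mul_left _ this
          split_ifs at h1 <;> omega
        · have h3 : j = i + 1 := by omega
          subst h3
          have h4 : i % 2 = 1 := by omega
          have h5 : ¬ (i + 1) % 2 = 1 := by omega
          have h6 : (i + 1 - 1) / 2 = (i - 1) / 2 := by omega
          unfold px at h1
          unfold py at h2
          rw [if_pos h4, if_neg h5, h6] at h1 h2
          have hsx : sx v ((i - 1) / 2) = 0 := by omega
          have hsy : sy v ((i - 1) / 2) = 0 := by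
            unfold ha hb at h2
            split_ifs at h2 <;> omega
          unfold sx at hsx
          unfold sy at hsy
          split_ifs at hsx hsy with hc
          exact hv _ (Prod.ext hsx hsy)
  intro i j hij
  rcases lt_trichotomy i j with h | h | h
  · exact absurd hij (key i j h (by omega))
  · exact h
  · exact absurd hij.symm (key j i h (by omega))

theorem sum_fst_le : ∑ i, (v i).1 ≤ maxC v := by
  unfold maxC
  rw [Finset.sum_add_distrib]
  omega

theorem wid_ge : maxC v + 1 ≤ wid v := by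
  have hs : maxC v * 5 ≤ spc v := by
    have := spc_ge v
    exact_mod_cast this
  unfold wid
  nlinarith

end Pool.Agent.Helper88.ETSP
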