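import Pool.Agent.Helper52.ETSP.Defs

namespace Pool.Agent.Helper88.ETSP

open Pool.Agent.Helper52.ETSP

/-- Largest coordinate of the vectors, plus one. -/
def maxC {m : ℕ} (v : Fin m → ℕ × ℕ) : ℕ := 1 + ∑ i, ((v i).1 + (v i).2)

/-- The spacing used by the reduction. -/
def spc {m : ℕ} (v : Fin m → ℕ × ℕ) : ℕ := 5 * (m + 1) * maxC v

/-- The width of the construction. -/
def wid {m : ℕ} (v : Fin m → ℕ × ℕ) : ℕ := 2 * spc v * (2 * m + 1) + 1

/-- The two ends of the `k`-th segment, `k = 0, ..., 2m+1`: the segments `0` and `2m+1` are the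
horizontal unit segments, the segment `2i+1` is the vector `(x_i, y_i)` starting on the
horizontal axis and the segment `2i+2` is the vector `(x_i, -y_i)` ending on the horizontal axis;
the left end of the `k`-th segment has abscissa `2 * spc v * k`. -/
def seg {m : ℕ} (v : Fin m → ℕ × ℕ) (k : ℕ) : (ℤ × ℤ) × (ℤ × ℤ) :=
  if h : 1 ≤ k ∧ (k - 1) / 2 < m then
    let w := v ⟨(k - 1) / 2, h.2⟩
    if k % 2 = 1 then
      ((2 * spc v * k, 0), (2 * spc v * k + w.1, w.2))
    else
      ((2 * spc v * k, w.2), (2 * spc v * k + w.1, 0))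
  else ((2 * spc v * k, 0), (2 * spc v * k + 1, 0))

/-- The `4m+6` points of the instance: two bottom corners and the ends of all segments. -/
def redPt {m : ℕ} (v : Fin m → ℕ × ℕ) (i : ℕ) : ℤ × ℤ :=
  if i = 0 then (0, -(wid v : ℤ))
  else if i = 4 * m + 5 then (wid v, -(wid v : ℤ))
  else if i % 2 = 1 then (seg v ((i - 1) / 2)).1 else (seg v ((i - 1) / 2)).2

/-- The length bound of the instance. -/
def redBound {m : ℕ} (v : Fin m → ℕ × ℕ) (B : ℕ) : ℕ :=
  4 * wid v - 2 * ∑ i, (v i).1 + 2 * B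

end Pool.Agent.Helper88.ETSP
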