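import Pool.Agent.Helper88.ETSP.Main

namespace Pool.Agent.Helper88.ETSP

open Pool.Agent.Helper52.ETSP (Instance)

/-- The instance produced by the reduction. -/
def reduce {m : ℕ} (v : Fin m → ℕ × ℕ) (hv : ∀ i, v i ≠ (0, 0)) (B : ℕ) : Instance where
  n := 4 * m + 6
  pt := fun i => redPt v i
  inj := redPt_inj v hv
  bound := redBound v B
  bound_pos := by
    unfold redBound
    have h1 := sum_fst_le v
    have h2 := wid_ge v
    omega

end Pool.Agent.Helper88.ETSP
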