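import Pool.Agent.Helper88.ETSP.Reduce

namespace Pool.Agent.Helper88.ETSP

open Pool.Agent.Helper52.ETSP (Instance)

open Finset

variable {m : ℕ} (v : Fin m → ℕ × ℕ)

theorem isLeast_len (hv : ∀ i, v i ≠ (0, 0)) (B : ℕ) :
    IsLeast (Set.range (reduce v hv B).len)
      (4 * (wid v : ℝ) - 2 * ∑ i, ((v i).1 : ℝ) +
        2 * ∑ i, Real.sqrt (((v i).1 : ℝ) ^ 2 + ((v i).2 : ℝ) ^ 2)) := by
  have e : 4 * (wid v : ℝ) - 2 * ∑ i, ((v i).1 : ℝ) +
        2 * ∑ i, Real.sqrt (((v i).1 : ℝ) ^ 2 + ((v i).2 : ℝ) ^ 2) =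
      4 * (wid v : ℝ) + 2 * ∑ k ∈ range (2 * m + 2), om v k := by
    rw [sum_om]; ring
  rw [e]
  constructor
  · refine ⟨Equiv.refl _, ?_⟩
    exact upper v
  · rintro _ ⟨σ, rfl⟩
    exact lower v σ

theorem reduce_yes_iff (hv : ∀ i, v i ≠ (0, 0)) (B : ℕ) :
    (reduce v hv B).Yes ↔ ∑ i, Real.sqrt (((v i).1 : ℝ) ^ 2 + ((v i).2 : ℝ) ^ 2) ≤ B := by
  have h := isLeast_len v hv B
  have hb : ((reduce v hv B).bound : ℝ) = 4 * (wid v : ℝ) - 2 * ∑ i, ((v i).1 : ℝ) + 2 * B := by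
    have h1 := sum_fst_le v
    have h2 := wid_ge v
    change ((redBound v B : ℕ) : ℝ) = _
    unfold redBound
    rw [Nat.cast_add, Nat.cast_sub (by omega)]
    push_cast
    ring
  constructor
  · rintro ⟨σ, hσ⟩
    have := h.2 ⟨σ, rfl⟩
    rw [hb] at hσ
    linarith
  · intro hle
    obtain ⟨σ, hσ⟩ := h.1
    refine ⟨σ, ?_⟩
    rw [hσ, hb]
    linarith

theorem wid_le : wid v ≤ 21 * (m + 1) ^ 2 * (1 + ∑ j, ((v j).1 + (v j).2)) := by
  have h := maxC_pos v
  have e : 1 + ∑ j, ((v j).1 + (v j).2) = maxC v := rfl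
  rw [e]
  unfold wid spc
  nlinarith [Nat.mul_le_mul_right (maxC v) (Nat.zero_le (m ^ 2)), Nat.zero_le (m * maxC v),
    Nat.zero_le (m ^ 2 * maxC v)]

theorem redPt_bound (i : ℕ) (hi : i ≤ 4 * m + 5) :
    |(redPt v i).1| ≤ wid v ∧ |(redPt v i).2| ≤ wid v := by
  rcases Nat.eq_zero_or_pos i with rfl | h0
  · have e0 : redPt v 0 = (0, -(wid v : ℤ)) := by unfold redPt; simp
    rw [e0]
    simp
  · rcases eq_or_lt_of_le hi with rfl | h1
    · have e : redPt v (4 * m + 5) = ((wid v : ℤ), -(wid v : ℤ)) := by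
        unfold redPt; simp
      rw [e]
      simp
    · rw [redPt_top v (by omega) (by omega)]
      simp only [Nat.abs_cast, Nat.cast_le]
      constructor
      · have h2 := xi_mono v (i := i) (j := 4 * m + 4) (by omega) (by omega)
        rw [← px_last v]
        by_cases hlt : (i - 1) / 2 < (4 * m + 4 - 1) / 2
        · have h3 := (xi_pair v hlt).2
          have h4 := (xi_pair v hlt).1
          have h5 := om_nonneg v ((i - 1) / 2)
          have h6 := om_nonneg v ((4 * m + 4 - 1) / 2)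
          have : (px v i : ℝ) ≤ px v (4 * m + 4) := by linarith
          exact_mod_cast this
        · have h3 : i = 4 * m + 4 ∨ i = 4 * m + 3 := by omega
          rcases h3 with rfl | rfl
          · exact le_rfl
          · have h5 : (4 * m + 3) % 2 = 1 := by omega
            have h6 := xi_same v h5
            unfold px
            have h7 : (4 * m + 3 - 1) / 2 = (4 * m + 4 - 1) / 2 := by omega
            rw [if_pos h5, h7]
            omega
      · have h2 := wid_ge v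
        have h3 : py v i ≤ maxC v := by
          unfold py ha hb
          have := sy_le v ((i - 1) / 2)
          split_ifs <;> omega
        omega

theorem main (hv : ∀ i, v i ≠ (0, 0)) (B : ℕ) :
    ((reduce v hv B).Yes ↔ ∑ i, Real.sqrt (((v i).1 : ℝ) ^ 2 + ((v i).2 : ℝ) ^ 2) ≤ B) ∧
    (reduce v hv B).n = 4 * m + 6 ∧
    (∀ i, |((reduce v hv B).pt i).1| ≤ 21 * (m + 1) ^ 2 * (1 + ∑ j, ((v j).1 + (v j).2) : ℕ) ∧
      |((reduce v hv B).pt i).2| ≤ 21 * (m + 1) ^ 2 * (1 + ∑ j, ((v j).1 + (v j).2) : ℕ)) ∧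
    (reduce v hv B).bound ≤ 84 * (m + 1) ^ 2 * (1 + ∑ j, ((v j).1 + (v j).2)) + 2 * B := by
  refine ⟨reduce_yes_iff v hv B, rfl, ?_, ?_⟩
  · intro i
    have h := redPt_bound v i (by have := i.2; change (i : ℕ) < 4 * m + 6 at this; omega)
    have h2 : (wid v : ℤ) ≤ 21 * (m + 1) ^ 2 * (1 + ∑ j, ((v j).1 + (v j).2) : ℕ) := by
      exact_mod_cast wid_le v
    exact ⟨h.1.trans h2, h.2.trans h2⟩
  · change redBound v B ≤ _
    unfold redBound
    have h2 := wid_le v
    have : 84 * (m + 1) ^ 2 * (1 + ∑ j, ((v j).1 + (v j).2)) =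
      4 * (21 * (m + 1) ^ 2 * (1 + ∑ j, ((v j).1 + (v j).2))) := by ring
    omega

end Pool.Agent.Helper88.ETSP
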